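import Pool.Agent.W593.ZT.Stm

/-! Project ZT (helper593), part TK2 (helper499). -/

open scoped Classical

set_option autoImplicit false

namespace Pool.Agent.W499.ZT

open Pool.Agent.W593.ZT

lemma two_elts {G : Type} [AddCommGroup G] [Fintype G] (M : AddSubgroup G) (hM : Nat.card M = 2)
    {d e : G} (hd : d ∈ M) (hd0 : d ≠ 0) (he : e ∈ M) : e = 0 ∨ e = d := by
  have h1 : (M : Set G).ncard = 2 := by
    rw [← Nat.card_coe_set_eq]
    exact hM
  obtain ⟨a, b, hab, hs⟩ := Set.ncard_eq_two.1 h1
  have k0 : (0 : G) ∈ ({a, b} : Set G) := by rw [← hs]; exact M.zero_mem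
  have kd : d ∈ ({a, b} : Set G) := by rw [← hs]; exact hd
  have ke : e ∈ ({a, b} : Set G) := by rw [← hs]; exact he
  simp only [Set.mem_insert_iff, Set.mem_singleton_iff] at k0 kd ke
  rcases k0 with h0 | h0 <;> rcases kd with h2 | h2 <;> rcases ke with h3 | h3
  · exact absurd (h2.trans h0.symm) hd0
  · exact absurd (h2.trans h0.symm) hd0
  · exact Or.inl (h3.trans h0.symm)
  · exact Or.inr (h3.trans h2.symm)
  · exact Or.inr (h3.trans h2.symm)
  · exact Or.inl (h3.trans h0.symm)
  · exact absurd (h2.trans h0.symm) hd0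
  · exact absurd (h2.trans h0.symm) hd0

/-- the neighbours of `x` in colour `g` -/
noncomputable def Nb {V G : Type} [Fintype V] (c : V → V → G) (x : V) (g : G) : Finset V :=
  Finset.univ.filter (fun y => y ≠ x ∧ c x y = g)

lemma key (hNSL : S_NSL) {V G : Type} [Fintype V] [AddCommGroup G] [Fintype G] {c : V → V → G}
    (hc : Ctx c) {x p : V} {g : G} {T : Finset V} (c3 : T.card = 3) (xT : x ∈ T) (pT : p ∈ T)
    (px : p ≠ x) (pc : c x p ≠ g) (s : ∀ y, y ≠ x → c x y = g → c y p ≠ g)
    (M : AddSubgroup G) (hM : Nat.card M = 2) (hnu : (nc c M Finset.univ T).card + 2 ≤ M.index) :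
    (Nb c x g).card + 1 ≤ M.index := by
  have hMtop : M ≠ ⊤ := by
    intro h
    rw [h, AddSubgroup.index_top] at hnu
    omega
  by_cases hA : ∃ z ∈ Nb c x g, c z p - g ∈ M
  · obtain ⟨z, hz, hzM⟩ := hA
    unfold Nb at hz
    rw [Finset.mem_filter] at hz
    obtain ⟨-, hzx, hzg⟩ := hz
    have hzp : z ≠ p := fun h => pc (h ▸ hzg)
    have hne : c z p ≠ g := s z hzx hzg
    have hzx' : c z x = g := by rw [hc.sym]; exact hzg
    have hd0 : c z p - g ≠ 0 := sub_ne_zero.2 hne
    set H : Finset V := {x, p} with hH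
    set A : V → Finset G := fun _ => Cs c H z with hAd
    have hgA : g ∈ A z := by
      rw [hAd]
      simp only [Cs, hH, Finset.mem_image, Finset.mem_insert, Finset.mem_singleton]
      exact ⟨x, Or.inl rfl, hzx'⟩
    have hpA : c z p ∈ A z := by
      rw [hAd]
      simp only [Cs, hH, Finset.mem_image, Finset.mem_insert, Finset.mem_singleton]
      exact ⟨p, Or.inr rfl, rfl⟩
    have hcov : Cov ⊥ M {z} A := by
      intro r0 hr0 t ht
      have hr := hr0 z (Finset.mem_singleton_self z)
      rw [Finset.sum_singleton] at ht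
      have hr1 : r0 z - g ∈ M := by
        rw [hAd] at hr
        simp only [Cs, hH, Finset.mem_image, Finset.mem_insert, Finset.mem_singleton] at hr
        obtain ⟨a, ha, ha2⟩ := hr
        rcases ha with ha | ha
        · rw [ha, hzx'] at ha2
          rw [← ha2, sub_self]
          exact M.zero_mem
        · rw [ha] at ha2
          rw [← ha2]
          exact hzM
      have ht1 : t - g ∈ M := by
        have := M.add_mem ht hr1
        rwa [sub_add_sub_cancel] at this
      have ht2 : t ∈ A z := by
        rcases two_elts M hM hzM hd0 ht1 with h | h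
        · rw [sub_eq_zero.1 h]; exact hgA
        · rw [sub_left_injective h]; exact hpA
      refine ⟨t, ⟨fun _ => t, ?_, ?_⟩, ?_⟩
      · intro w hw
        rw [Finset.mem_singleton] at hw
        rw [hw]; exact ht2
      · rw [Finset.sum_singleton]
      · rw [sub_self]; exact AddSubgroup.zero_mem _
    have h := hNSL V G c hc M g H {z} A (fun _ => g) hMtop ⟨x, by rw [hH]; simp⟩
      (by
        rw [Finset.disjoint_singleton_right, hH]
        simp only [Finset.mem_insert, Finset.mem_singleton, not_or]
        exact ⟨hzx, hzp⟩)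
      (by
        intro w hw
        rw [Finset.mem_singleton] at hw
        rw [hw])
      hcov
      (by
        intro w hw
        rw [Finset.mem_singleton] at hw
        rw [hw]; exact hgA)
      (by
        rw [Finset.sum_singleton, Finset.card_singleton, one_smul, sub_self]
        exact M.zero_mem)
    have hsub : (Nb c x g).erase z ⊆ (Finset.univ \ (H ∪ {z})).filter
        (fun y => ∃ h ∈ H, c y h - g ∈ M) := by
      intro y hy
      rw [Finset.mem_erase] at hy
      obtain ⟨hyz, hy⟩ := hy
      unfold Nb at hy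
      rw [Finset.mem_filter] at hy
      obtain ⟨-, hyx, hyg⟩ := hy
      rw [Finset.mem_filter]
      refine ⟨?_, x, by rw [hH]; simp, ?_⟩
      · rw [Finset.mem_sdiff]
        refine ⟨Finset.mem_univ _, ?_⟩
        rw [hH]
        simp only [Finset.mem_union, Finset.mem_insert, Finset.mem_singleton, not_or]
        refine ⟨⟨hyx, ?_⟩, hyz⟩
        intro h
        exact pc (h ▸ hyg)
      · rw [hc.sym, hyg, sub_self]
        exact M.zero_mem
    have hcard := Finset.card_le_card hsub
    have hmem : z ∈ Nb c x g := by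
      unfold Nb
      rw [Finset.mem_filter]
      exact ⟨Finset.mem_univ _, hzx, hzg⟩
    have hpos : 0 < (Nb c x g).card := Finset.card_pos.2 ⟨z, hmem⟩
    rw [Finset.card_erase_of_mem hmem] at hcard
    omega
  · push Not at hA
    have hsub : Nb c x g ⊆ nc c M Finset.univ T ∪ (T.erase x).erase p := by
      intro y hy
      have hyM := hA y hy
      unfold Nb at hy
      rw [Finset.mem_filter] at hy
      obtain ⟨-, hyx, hyg⟩ := hy
      rw [Finset.mem_union]
      by_cases hyT : y ∈ T
      · right
        rw [Finset.mem_erase, Finset.mem_erase]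
        exact ⟨fun h => pc (h ▸ hyg), hyx, hyT⟩
      · left
        unfold nc
        rw [Finset.mem_filter, Finset.mem_sdiff]
        refine ⟨⟨Finset.mem_univ _, hyT⟩, ?_⟩
        intro htc
        apply hyM
        have h1 : c y p ∈ Cs c T y := by
          unfold Cs
          exact Finset.mem_image_of_mem _ pT
        have h2 : c y x ∈ Cs c T y := by
          unfold Cs
          exact Finset.mem_image_of_mem _ xT
        have h3 := htc _ h1 _ h2
        rwa [hc.sym y x, hyg] at h3
    have h1 := Finset.card_le_card hsub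
    have h2 := Finset.card_union_le (nc c M Finset.univ T) ((T.erase x).erase p)
    have h3 : ((T.erase x).erase p).card = 1 := by
      rw [Finset.card_erase_of_mem (Finset.mem_erase.2 ⟨px, pT⟩), Finset.card_erase_of_mem xT, c3]
    omega

/-- TK2 -/
theorem tk2 (hNSL : S_NSL) : S_TK2 := by
  intro V G _ _ _ c hc x g1 g2 hg hRs T p1 p2 hT M hM
  by_contra hcon
  push Not at hcon
  have hnu : (nc c M Finset.univ T).card + 2 ≤ M.index := by omega
  have k1 := key hNSL hc hT.c3 hT.xT hT.p1T hT.p1x hT.p1c hT.s1 M hM hnu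
  have k2 := key hNSL hc hT.c3 hT.xT hT.p2T hT.p2x hT.p2c hT.s2 M hM hnu
  have hG : 2 * M.index = Fintype.card G := by
    rw [← Nat.card_eq_fintype_card, ← hM]
    exact M.card_mul_index
  have hV := hc.card
  have hsub : (Finset.univ : Finset V).erase x ⊆ (Nb c x g1 ∪ Nb c x g2) ∪ Rs c x g1 g2 := by
    intro y hy
    have hyx : y ≠ x := (Finset.mem_erase.1 hy).1
    simp only [Nb, Rs, Finset.mem_union, Finset.mem_filter, Finset.mem_univ, true_and]
    by_cases h1 : c x y = g1
    · exact Or.inl (Or.inl ⟨hyx, h1⟩)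
    · by_cases h2 : c x y = g2
      · exact Or.inl (Or.inr ⟨hyx, h2⟩)
      · exact Or.inr ⟨hyx, h1, h2⟩
  have h1 := Finset.card_le_card hsub
  have h2 := Finset.card_union_le (Nb c x g1 ∪ Nb c x g2) (Rs c x g1 g2)
  have h3 := Finset.card_union_le (Nb c x g1) (Nb c x g2)
  rw [Finset.card_erase_of_mem (Finset.mem_univ x), Finset.card_univ, hV] at h1
  omega

end Pool.Agent.W499.ZT
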